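import Mathlib

/-!
# A formal arc through a smooth point
-/

set_option autoImplicit false

namespace Pool.Agent.Helper88.TNA

open MvPolynomial

section Taylor

variable {σ O A : Type*} [CommRing O] [CommRing A] [Algebra O A]

theorem aeval_sub_mem (J : Ideal A) (P : MvPolynomial σ O) {x y : σ → A}
    (h : ∀ i, y i - x i ∈ J) : aeval y P - aeval x P ∈ J := by
  rw [← Ideal.Quotient.mk_eq_mk_iff_sub_mem]
  have h1 : ∀ z : σ → A, Ideal.Quotient.mk J (aeval z P) =
      aeval (R := O) (fun i => Ideal.Quotient.mk J (z i)) P := by
    intro z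
    have := (Ideal.Quotient.mkₐ O J).comp_apply (aeval z) P
    rw [comp_aeval] at this
    exact this.symm
  rw [h1, h1]
  congr 2
  funext i
  exact (Ideal.Quotient.mk_eq_mk_iff_sub_mem _ _).2 (h i)

/-- Taylor expansion to first order. -/
theorem taylor_mem [Fintype σ] (J : Ideal A) (P : MvPolynomial σ O) {x y : σ → A}
    (h : ∀ i, y i - x i ∈ J) :
    aeval y P - aeval x P - ∑ i, aeval x (pderiv i P) * (y i - x i) ∈ J ^ 2 := by
  classical
  induction P using MvPolynomial.induction_on with
  | C a => simp
  | add P Q hP hQ =>
    have h1 : aeval y (P + Q) - aeval x (P + Q) - ∑ i, aeval x (pderiv i (P + Q)) * (y i - x i) =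
        (aeval y P - aeval x P - ∑ i, aeval x (pderiv i P) * (y i - x i)) +
        (aeval y Q - aeval x Q - ∑ i, aeval x (pderiv i Q) * (y i - x i)) := by
      simp only [map_add, add_mul, Finset.sum_add_distrib]
      ring
    rw [h1]
    exact (J ^ 2).add_mem hP hQ
  | mul_X P j hP =>
    have h1 : aeval y (P * X j) - aeval x (P * X j) -
        ∑ i, aeval x (pderiv i (P * X j)) * (y i - x i) =
        (aeval y P - aeval x P - ∑ i, aeval x (pderiv i P) * (y i - x i)) * x j +
        (aeval y P - aeval x P) * (y j - x j) := by
      have h2 : ∑ i, aeval x (pderiv i (P * X j)) * (y i - x i) =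
          (∑ i, aeval x (pderiv i P) * (y i - x i)) * x j + aeval x P * (y j - x j) := by
        have h3 : ∀ i, aeval x (pderiv i (P * X j)) * (y i - x i) =
            aeval x (pderiv i P) * (y i - x i) * x j +
              (if i = j then aeval x P * (y j - x j) else 0) := by
          intro i
          rw [Derivation.leibniz, pderiv_X]
          simp only [smul_eq_mul, map_add, map_mul, aeval_X]
          split_ifs with hij
          · subst hij
            simp
            ring
          · rw [Pi.single_apply, if_neg fun h' => hij h'.symm]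
            simp
            ring
        rw [Finset.sum_congr rfl fun i _ => h3 i, Finset.sum_add_distrib, ← Finset.sum_mul,
          Finset.sum_ite_eq' Finset.univ j]
        simp
      rw [h2]
      simp only [map_mul, aeval_X]
      ring
    rw [h1]
    refine (J ^ 2).add_mem ((J ^ 2).mul_mem_right _ hP) ?_
    rw [pow_two]
    exact Ideal.mul_mem_mul (aeval_sub_mem J P h) (h j)

end Taylor

section Arc

variable {O : Type*} [CommRing O] {ι : Type*} [Fintype ι]

/-- The point of the formal arc with the given coordinates. -/
noncomputable def full (a : O) (w : ι → PowerSeries O) : Option ι → PowerSeries O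
  | none => PowerSeries.C a + PowerSeries.X
  | some i => w i

theorem constantCoeff_aeval {σ : Type*} (P : MvPolynomial σ O) (x : σ → PowerSeries O) :
    PowerSeries.constantCoeff (aeval x P) =
      eval (fun i => PowerSeries.constantCoeff (x i)) P := by
  have h1 : (PowerSeries.constantCoeff (R := O)).comp
      (aeval (R := O) x).toRingHom = eval (fun i => PowerSeries.constantCoeff (x i)) := by
    ext i
    · simp
    · simp
  exact congrArg (fun φ => φ P) h1

omit [Fintype ι] in
theorem full_sub_mem (a : O) {w w' : ι → PowerSeries O} {J : Ideal (PowerSeries O)}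
    (h : ∀ i, w' i - w i ∈ J) (i : Option ι) : full a w' i - full a w i ∈ J := by
  cases i with
  | none => simp [full]
  | some i => exact h i

variable [DecidableEq ι]

/-- Newton's step. -/
theorem newton (g : ι → MvPolynomial (Option ι) O) (p : Option ι → O)
    (M' : Matrix ι ι O)
    (hM : (Matrix.of fun i j => eval p (pderiv (some j) (g i))) * M' = 1)
    (w : ι → PowerSeries O) (hw : ∀ i, PowerSeries.constantCoeff (w i) = p (some i)) (k : ℕ)
    (hk : ∀ j, PowerSeries.X ^ (k + 1) ∣ aeval (full (p none) w) (g j)) :
    ∃ w' : ι → PowerSeries O, (∀ i, PowerSeries.constantCoeff (w' i) = p (some i)) ∧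
      (∀ i, PowerSeries.X ^ (k + 1) ∣ w' i - w i) ∧
      ∀ j, PowerSeries.X ^ (k + 2) ∣ aeval (full (p none) w') (g j) := by
  set G : ι → PowerSeries O := fun j => aeval (full (p none) w) (g j) with hG
  set δ : ι → PowerSeries O := fun i => - ∑ j, PowerSeries.C (M' i j) * G j with hδ
  have hδd : ∀ i, PowerSeries.X ^ (k + 1) ∣ δ i := fun i =>
    (Finset.dvd_sum fun j _ => Dvd.dvd.mul_left (hk j) _).neg_right
  set J : Ideal (PowerSeries O) := Ideal.span {PowerSeries.X ^ (k + 1)} with hJ
  have hmem : ∀ i, (fun i => w i + δ i) i - w i ∈ J := by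
    intro i
    simp only [add_sub_cancel_left]
    exact Ideal.mem_span_singleton.2 (hδd i)
  refine ⟨fun i => w i + δ i, fun i => ?_, fun i => Ideal.mem_span_singleton.1 (hmem i),
    fun j => ?_⟩
  · rw [map_add, hw i]
    have h1 : PowerSeries.constantCoeff (δ i) = 0 :=
      PowerSeries.X_dvd_iff.1 ((dvd_pow_self _ (Nat.succ_ne_zero k)).trans (hδd i))
    rw [h1, add_zero]
  · have ht := taylor_mem J (g j) (full_sub_mem (p none) hmem)
    have hJ2 : J ^ 2 ≤ Ideal.span {PowerSeries.X ^ (k + 2)} := by
      rw [hJ, Ideal.span_singleton_pow, Ideal.span_singleton_le_span_singleton, ← pow_mul]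
      exact pow_dvd_pow _ (by omega)
    have ht2 := Ideal.mem_span_singleton.1 (hJ2 ht)
    rw [Fintype.sum_option] at ht2
    have h0 : full (p none) (fun i => w i + δ i) none - full (p none) w none = 0 := by
      simp [full]
    rw [h0, mul_zero, zero_add] at ht2
    have h1 : ∀ i, full (p none) (fun i => w i + δ i) (some i) - full (p none) w (some i) =
        δ i := by
      intro i
      simp [full]
    simp only [h1] at ht2
    -- the derivatives at the constant terms
    have hder : ∀ i, PowerSeries.X ^ (k + 2) ∣
        aeval (full (p none) w) (pderiv (some i) (g j)) * δ i -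
          PowerSeries.C (eval p (pderiv (some i) (g j))) * δ i := by
      intro i
      rw [← sub_mul, pow_succ' PowerSeries.X (k + 1)]
      refine mul_dvd_mul ?_ (hδd i)
      rw [PowerSeries.X_dvd_iff, map_sub, constantCoeff_aeval, PowerSeries.constantCoeff_C]
      have h2 : (fun i => PowerSeries.constantCoeff (full (p none) w i)) = p := by
        funext i
        cases i with
        | none => simp [full]
        | some i => exact hw i
      rw [h2, sub_self]
    have hsum : PowerSeries.X ^ (k + 2) ∣
        ∑ i, aeval (full (p none) w) (pderiv (some i) (g j)) * δ i -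
          ∑ i, PowerSeries.C (eval p (pderiv (some i) (g j))) * δ i := by
      rw [← Finset.sum_sub_distrib]
      exact Finset.dvd_sum fun i _ => hder i
    have hlin : ∑ i, PowerSeries.C (eval p (pderiv (some i) (g j))) * δ i = - G j := by
      have h3 : ∀ i, PowerSeries.C (eval p (pderiv (some i) (g j))) * δ i =
          - ∑ l, PowerSeries.C (eval p (pderiv (some i) (g j)) * M' i l) * G l := by
        intro i
        rw [hδ]
        simp only [mul_neg, Finset.mul_sum]
        congr 1
        refine Finset.sum_congr rfl fun l _ => ?_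
        rw [map_mul, mul_assoc]
      rw [Finset.sum_congr rfl fun i _ => h3 i, Finset.sum_neg_distrib, Finset.sum_comm]
      congr 1
      have h4 : ∀ l, ∑ i, PowerSeries.C (eval p (pderiv (some i) (g j)) * M' i l) * G l =
          (if j = l then G l else 0) := by
        intro l
        rw [← Finset.sum_mul, ← map_sum]
        have h5 : ∑ i, eval p (pderiv (some i) (g j)) * M' i l = (1 : Matrix ι ι O) j l := by
          rw [← hM, Matrix.mul_apply]
          rfl
        rw [h5, Matrix.one_apply]
        split_ifs <;> simp
      rw [Finset.sum_congr rfl fun l _ => h4 l, Finset.sum_ite_eq Finset.univ j]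
      simp
    rw [hlin] at hsum
    have hfin : aeval (full (p none) fun i => w i + δ i) (g j) =
        (aeval (full (p none) fun i => w i + δ i) (g j) - aeval (full (p none) w) (g j) -
          ∑ i, aeval (full (p none) w) (pderiv (some i) (g j)) * δ i) +
        (∑ i, aeval (full (p none) w) (pderiv (some i) (g j)) * δ i - - G j) := by
      rw [hG]
      ring
    rw [hfin]
    exact dvd_add ht2 hsum

/-- **The formal arc through a smooth point.** -/
theorem exists_arc (g : ι → MvPolynomial (Option ι) O) (p : Option ι → O)
    (hg : ∀ j, eval p (g j) = 0)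
    (hdet : IsUnit (Matrix.of fun i j => eval p (pderiv (some j) (g i))).det) :
    ∃ v : Option ι → PowerSeries O, v none = PowerSeries.C (p none) + PowerSeries.X ∧
      (∀ i, PowerSeries.constantCoeff (v i) = p i) ∧ ∀ j, aeval v (g j) = 0 := by
  classical
  set M : Matrix ι ι O := Matrix.of fun i j => eval p (pderiv (some j) (g i)) with hM
  have hMM : M * M⁻¹ = 1 := Matrix.mul_nonsing_inv M hdet
  -- the sequence
  have hstep : ∀ k : ℕ, ∀ w : ι → PowerSeries O,
      ((∀ i, PowerSeries.constantCoeff (w i) = p (some i)) ∧
        ∀ j, PowerSeries.X ^ (k + 1) ∣ aeval (full (p none) w) (g j)) →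
      ∃ w' : ι → PowerSeries O, ((∀ i, PowerSeries.constantCoeff (w' i) = p (some i)) ∧
        ∀ j, PowerSeries.X ^ (k + 2) ∣ aeval (full (p none) w') (g j)) ∧
        ∀ i, PowerSeries.X ^ (k + 1) ∣ w' i - w i := by
    rintro k w ⟨h1, h2⟩
    obtain ⟨w', h3, h4, h5⟩ := newton g p M⁻¹ hMM w h1 k h2
    exact ⟨w', ⟨h3, h5⟩, h4⟩
  let P : ℕ → Type _ := fun k => {w : ι → PowerSeries O //
    (∀ i, PowerSeries.constantCoeff (w i) = p (some i)) ∧
        ∀ j, PowerSeries.X ^ (k + 1) ∣ aeval (full (p none) w) (g j)}
  have h0 : (∀ i, PowerSeries.constantCoeff ((fun i => PowerSeries.C (p (some i))) i) =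
      p (some i)) ∧
      ∀ j, PowerSeries.X ^ (0 + 1) ∣
        aeval (full (p none) fun i => PowerSeries.C (p (some i))) (g j) := by
    refine ⟨fun i => PowerSeries.constantCoeff_C _, fun j => ?_⟩
    rw [zero_add, pow_one, PowerSeries.X_dvd_iff, constantCoeff_aeval]
    have h2 : (fun i => PowerSeries.constantCoeff
        (full (p none) (fun i => PowerSeries.C (p (some i))) i)) = p := by
      funext i
      cases i with
      | none => simp [full]
      | some i => simp [full]
    rw [h2, hg j]
  let seq : (k : ℕ) → P k := fun k => Nat.rec (motive := P)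
    ⟨fun i => PowerSeries.C (p (some i)), h0⟩
    (fun k w => ⟨(hstep k w.1 w.2).choose, (hstep k w.1 w.2).choose_spec.1⟩) k
  have hseq : ∀ k i, PowerSeries.X ^ (k + 1) ∣ (seq (k + 1)).1 i - (seq k).1 i :=
    fun k => (hstep k (seq k).1 (seq k).2).choose_spec.2
  have hseq2 : ∀ k m, k ≤ m → ∀ i, PowerSeries.X ^ (k + 1) ∣ (seq m).1 i - (seq k).1 i := by
    intro k m hkm
    induction m, hkm using Nat.le_induction with
    | base => intro i; simp
    | succ m hkm ih =>
      intro i
      have h1 : (seq (m + 1)).1 i - (seq k).1 i =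
          ((seq (m + 1)).1 i - (seq m).1 i) + ((seq m).1 i - (seq k).1 i) := by ring
      rw [h1]
      exact dvd_add ((pow_dvd_pow _ (by omega)).trans (hseq m i)) (ih i)
  set w : ι → PowerSeries O := fun i => PowerSeries.mk fun n => PowerSeries.coeff n ((seq n).1 i)
    with hw
  have hwk : ∀ k i, PowerSeries.X ^ (k + 1) ∣ w i - (seq k).1 i := by
    intro k i
    rw [PowerSeries.X_pow_dvd_iff]
    intro n hn
    rw [map_sub, hw]
    simp only [PowerSeries.coeff_mk]
    have h1 := hseq2 n k (by omega) i
    rw [PowerSeries.X_pow_dvd_iff] at h1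
    have h2 := h1 n (by omega)
    rw [map_sub, sub_eq_zero] at h2
    rw [h2, sub_self]
  refine ⟨full (p none) w, rfl, fun i => ?_, fun j => ?_⟩
  · cases i with
    | none => simp [full]
    | some i =>
      have h1 : PowerSeries.X ∣ w i - (seq 0).1 i :=
        (dvd_pow_self _ (Nat.succ_ne_zero 0)).trans (hwk 0 i)
      rw [PowerSeries.X_dvd_iff, map_sub, sub_eq_zero] at h1
      change PowerSeries.constantCoeff (w i) = _
      rw [h1]
      exact (seq 0).2.1 i
  · ext n
    rw [map_zero]
    have h1 := (seq n).2.2 j
    have h2 : aeval (full (p none) w) (g j) - aeval (full (p none) (seq n).1) (g j) ∈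
        Ideal.span {(PowerSeries.X : PowerSeries O) ^ (n + 1)} :=
      aeval_sub_mem _ (g j) (full_sub_mem (p none)
        fun i => Ideal.mem_span_singleton.2 (hwk n i))
    have h3 : PowerSeries.X ^ (n + 1) ∣ aeval (full (p none) w) (g j) := by
      have h4 := dvd_add (Ideal.mem_span_singleton.1 h2) h1
      rwa [sub_add_cancel] at h4
    exact PowerSeries.X_pow_dvd_iff.1 h3 n (by omega)

end Arc

end Pool.Agent.Helper88.TNA
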