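import Mathlib
import Pool.Agent.Helper88.TNA.Arc

/-!
# The arc lies in the curve
-/

set_option autoImplicit false

namespace Pool.Agent.Helper88.TNA

open MvPolynomial

variable {K : Type*} [Field K] {ι : Type*} [Fintype ι] [DecidableEq ι]

/-- The polynomials vanishing at the point. -/
noncomputable def ptIdeal {σ : Type*} (p : σ → K) : Ideal (MvPolynomial σ K) :=
  RingHom.ker (eval p)

theorem mem_ptIdeal {σ : Type*} {p : σ → K} {h : MvPolynomial σ K} :
    h ∈ ptIdeal p ↔ eval p h = 0 := RingHom.mem_ker

theorem ptIdeal_ne_top {σ : Type*} (p : σ → K) : (1 : MvPolynomial σ K) ∉ ptIdeal p := by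
  rw [mem_ptIdeal, map_one]
  exact one_ne_zero

theorem sub_C_mem {σ : Type*} (p : σ → K) (i : σ) : X i - C (p i) ∈ ptIdeal p := by
  rw [mem_ptIdeal, map_sub, eval_X, eval_C, sub_self]

/-- The maximal ideal is generated by the differences. -/
theorem ptIdeal_le {σ : Type*} (p : σ → K) {J : Ideal (MvPolynomial σ K)}
    (h : ∀ i, X i - C (p i) ∈ J) : ptIdeal p ≤ J := by
  intro P hP
  rw [mem_ptIdeal] at hP
  have h1 := aeval_sub_mem (O := K) (A := MvPolynomial σ K) J P (x := fun i => C (p i)) (y := X) h
  have h2 : aeval (fun i => (C (p i) : MvPolynomial σ K)) P = 0 := by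
    have h3 : aeval (fun i => (C (p i) : MvPolynomial σ K)) P = C (eval p P) := by
      have h4 : (aeval (R := K) fun i => (C (p i) : MvPolynomial σ K)).toRingHom =
          C.comp (eval p) := by
        ext i
        · simp [algebraMap_eq]
        · simp
      exact congrArg (fun φ => φ P) h4
    rw [h3, hP, map_zero]
  rw [h2, sub_zero, aeval_X_left_apply] at h1
  exact h1

/-- The first step: the maximal ideal modulo its square. -/
theorem ptIdeal_le_sup (g : ι → MvPolynomial (Option ι) K) (p : Option ι → K)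
    (hg : ∀ j, eval p (g j) = 0)
    (hdet : IsUnit (Matrix.of fun i j => eval p (pderiv (some j) (g i))).det) :
    ptIdeal p ≤ (Ideal.span (Set.range g) ⊔ Ideal.span {X none - C (p none)}) ⊔
      ptIdeal p ^ 2 := by
  set M : Matrix ι ι K := Matrix.of fun i j => eval p (pderiv (some j) (g i)) with hM
  have hMM : M⁻¹ * M = 1 := Matrix.nonsing_inv_mul M hdet
  set J := (Ideal.span (Set.range g) ⊔ Ideal.span {X none - C (p none)}) ⊔ ptIdeal p ^ 2 with hJ
  have ht : X none - C (p none) ∈ J :=
    Ideal.mem_sup_left (Ideal.mem_sup_right (Ideal.mem_span_singleton_self _))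
  refine ptIdeal_le p fun i => ?_
  cases i with
  | none => exact ht
  | some i =>
    have h1 : ∀ j, ∑ l, C (M j l) * (X (some l) - C (p (some l))) ∈ J := by
      intro j
      have h2 := taylor_mem (O := K) (A := MvPolynomial (Option ι) K) (ptIdeal p) (g j)
        (x := fun i => C (p i)) (y := X) (fun i => sub_C_mem p i)
      have h3 : ∀ P : MvPolynomial (Option ι) K,
          aeval (fun i => (C (p i) : MvPolynomial (Option ι) K)) P = C (eval p P) := by
        intro P
        have h4 : (aeval (R := K) fun i => (C (p i) : MvPolynomial (Option ι) K)).toRingHom =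
            C.comp (eval p) := by
          ext i
          · simp [algebraMap_eq]
          · simp
        exact congrArg (fun φ => φ P) h4
      simp only [h3] at h2
      rw [hg j, map_zero, sub_zero, aeval_X_left_apply, Fintype.sum_option] at h2
      have h5 : g j - (g j - (C (eval p (pderiv none (g j))) * (X none - C (p none)) +
          ∑ l, C (eval p (pderiv (some l) (g j))) * (X (some l) - C (p (some l))))) -
          C (eval p (pderiv none (g j))) * (X none - C (p none)) =
          ∑ l, C (M j l) * (X (some l) - C (p (some l))) := by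
        rw [hM]
        simp only [Matrix.of_apply]
        ring
      rw [← h5]
      refine J.sub_mem (J.sub_mem ?_ ?_) ?_
      · exact Ideal.mem_sup_left (Ideal.mem_sup_left (Ideal.subset_span ⟨j, rfl⟩))
      · exact Ideal.mem_sup_right h2
      · exact J.mul_mem_left _ ht
    have h2 : X (some i) - C (p (some i)) =
        ∑ j, C (M⁻¹ i j) * ∑ l, C (M j l) * (X (some l) - C (p (some l))) := by
      have h3 : ∑ j, C (M⁻¹ i j) * ∑ l, C (M j l) * (X (some l) - C (p (some l))) =
          ∑ l, C ((M⁻¹ * M) i l) * (X (some l) - C (p (some l))) := by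
        simp only [Finset.mul_sum]
        rw [Finset.sum_comm]
        refine Finset.sum_congr rfl fun l _ => ?_
        rw [Matrix.mul_apply, map_sum, Finset.sum_mul]
        refine Finset.sum_congr rfl fun j _ => ?_
        rw [map_mul, mul_assoc]
      rw [h3, hMM]
      simp [Matrix.one_apply]
    rw [h2]
    exact J.sum_mem fun j _ => J.mul_mem_left _ (h1 j)

/-- Nakayama: near the point the maximal ideal is generated by the equations and the
parameter. -/
theorem exists_mul_mem (g : ι → MvPolynomial (Option ι) K) (p : Option ι → K)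
    (hg : ∀ j, eval p (g j) = 0)
    (hdet : IsUnit (Matrix.of fun i j => eval p (pderiv (some j) (g i))).det) :
    ∃ s, s ∉ ptIdeal p ∧ ∀ h ∈ ptIdeal p,
      s * h ∈ Ideal.span (Set.range g) ⊔ Ideal.span {X none - C (p none)} := by
  set J := Ideal.span (Set.range g) ⊔ Ideal.span {X none - C (p none)} with hJ
  have h1 := ptIdeal_le_sup g p hg hdet
  rw [← hJ] at h1
  have hfg : (ptIdeal p).FG := (isNoetherianRing_iff_ideal_fg _).1 inferInstance _
  -- in the quotient by `J`
  set N : Ideal (MvPolynomial (Option ι) K ⧸ J) := (ptIdeal p).map (Ideal.Quotient.mk J) with hN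
  have hNfg : N.FG := hfg.map _
  have hN2 : N ≤ N * N := by
    have h2 : N = ((J ⊔ ptIdeal p ^ 2) ⊔ ptIdeal p).map (Ideal.Quotient.mk J) := by
      rw [sup_eq_left.2 h1] 
      refine le_antisymm (Ideal.map_mono h1) ?_
      rw [Ideal.map_sup, Ideal.map_quotient_self, bot_sup_eq]
      exact Ideal.map_mono (Ideal.pow_le_self two_ne_zero)
    have h3 : N ≤ (J ⊔ ptIdeal p ^ 2).map (Ideal.Quotient.mk J) := Ideal.map_mono h1
    rw [Ideal.map_sup, Ideal.map_quotient_self, bot_sup_eq, pow_two, Ideal.map_mul] at h3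
    exact h3
  obtain ⟨r, hr1, hr2⟩ := Submodule.exists_sub_one_mem_and_smul_eq_zero_of_fg_of_le_smul N N
    hNfg (by simpa [smul_eq_mul] using hN2)
  obtain ⟨s, rfl⟩ := Ideal.Quotient.mk_surjective r
  refine ⟨s, fun hs => ?_, fun h hh => ?_⟩
  · have h2 : (Ideal.Quotient.mk J) s ∈ N := Ideal.mem_map_of_mem _ hs
    have h3 : (1 : MvPolynomial (Option ι) K ⧸ J) ∈ N := by
      have h4 := N.sub_mem h2 hr1
      rwa [sub_sub_cancel] at h4
    have hJle : J ≤ ptIdeal p := by
      rw [hJ]
      refine sup_le (Ideal.span_le.2 ?_) (Ideal.span_le.2 ?_)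
      · rintro _ ⟨j, rfl⟩
        exact mem_ptIdeal.2 (hg j)
      · rintro _ rfl
        exact sub_C_mem p none
    have h5 : (1 : MvPolynomial (Option ι) K) ∈ ptIdeal p := by
      have h6 : Ideal.Quotient.mk J 1 ∈ N := by rwa [map_one]
      rw [hN, Ideal.mem_quotient_iff_mem_sup, sup_eq_left.2 hJle] at h6
      exact h6
    exact ptIdeal_ne_top p h5
  · have h2 := hr2 (Ideal.Quotient.mk J h) (Ideal.mem_map_of_mem _ hh)
    rw [smul_eq_mul, ← map_mul, Ideal.Quotient.eq_zero_iff_mem] at h2
    exact h2

/-- Division by powers of the parameter. -/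
theorem exists_div (g : ι → MvPolynomial (Option ι) K) (p : Option ι → K)
    (hg : ∀ j, eval p (g j) = 0)
    (hdet : IsUnit (Matrix.of fun i j => eval p (pderiv (some j) (g i))).det)
    (v : Option ι → PowerSeries K) (hv0 : v none = PowerSeries.C (p none) + PowerSeries.X)
    (hvp : ∀ i, PowerSeries.constantCoeff (v i) = p i) (hvg : ∀ j, aeval v (g j) = 0)
    (h : MvPolynomial (Option ι) K) (k : ℕ) (hk : PowerSeries.X ^ k ∣ aeval v h) :
    ∃ s r, s ∉ ptIdeal p ∧
      s * h - (X none - C (p none)) ^ k * r ∈ Ideal.span (Set.range g) := by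
  have hcc : ∀ P : MvPolynomial (Option ι) K,
      PowerSeries.constantCoeff (aeval v P) = eval p P := by
    intro P
    rw [constantCoeff_aeval]
    congr 2
    funext i
    exact hvp i
  have hspan : ∀ P ∈ Ideal.span (Set.range g), aeval v P = 0 := by
    intro P hP
    have h1 : Ideal.span (Set.range g) ≤ RingHom.ker (aeval (R := K) v).toRingHom := by
      rw [Ideal.span_le]
      rintro _ ⟨j, rfl⟩
      exact hvg j
    exact h1 hP
  have hprime : (ptIdeal p).IsPrime := RingHom.ker_isPrime _
  induction k with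
  | zero =>
    refine ⟨1, h, ptIdeal_ne_top p, ?_⟩
    rw [pow_zero, sub_self]
    exact Ideal.zero_mem _
  | succ k ih =>
    obtain ⟨s, r, hs, hsr⟩ := ih ((pow_dvd_pow _ (Nat.le_succ k)).trans hk)
    have h1 := hspan _ hsr
    rw [map_sub, map_mul, map_mul, map_pow, map_sub, aeval_X, aeval_C, hv0] at h1
    have h2 : PowerSeries.C (p none) + PowerSeries.X - algebraMap K (PowerSeries K) (p none) =
        PowerSeries.X := by
      rw [← PowerSeries.algebraMap_eq, add_sub_cancel_left]
    rw [h2, sub_eq_zero] at h1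
    have h3 : PowerSeries.X ∣ aeval v r := by
      have h4 : (PowerSeries.X : PowerSeries K) ^ k * PowerSeries.X ∣
          PowerSeries.X ^ k * aeval v r := by
        rw [← pow_succ, ← h1]
        exact Dvd.dvd.mul_left hk _
      exact (mul_dvd_mul_iff_left (pow_ne_zero _ PowerSeries.X_ne_zero)).1 h4
    rw [PowerSeries.X_dvd_iff, hcc] at h3
    obtain ⟨s', hs', hs'm⟩ := exists_mul_mem g p hg hdet
    obtain ⟨a, ha, b, hb, hab⟩ := Submodule.mem_sup.1 (hs'm r (mem_ptIdeal.2 h3))
    obtain ⟨c, hc⟩ := Ideal.mem_span_singleton'.1 hb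
    refine ⟨s' * s, c, fun h' => (hprime.mem_or_mem h').elim hs' hs, ?_⟩
    have h5 : s' * s * h - (X none - C (p none)) ^ (k + 1) * c =
        s' * (s * h - (X none - C (p none)) ^ k * r) + (X none - C (p none)) ^ k * a := by
      have h6 : s' * r = a + c * (X none - C (p none)) := by rw [← hab, hc]
      linear_combination (X none - C (p none)) ^ k * h6
    rw [h5]
    exact Ideal.add_mem _ (Ideal.mul_mem_left _ _ hsr) (Ideal.mul_mem_left _ _ ha)

/-- **The arc lies in the curve**: a prime ideal containing the equations and vanishing at the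
point, and which is not the ideal of the point, vanishes on the arc. -/
theorem arc_mem (g : ι → MvPolynomial (Option ι) K) (p : Option ι → K)
    (hdet : IsUnit (Matrix.of fun i j => eval p (pderiv (some j) (g i))).det)
    (v : Option ι → PowerSeries K) (hv0 : v none = PowerSeries.C (p none) + PowerSeries.X)
    (hvp : ∀ i, PowerSeries.constantCoeff (v i) = p i) (hvg : ∀ j, aeval v (g j) = 0)
    (I : Ideal (MvPolynomial (Option ι) K)) [I.IsPrime] (hgI : ∀ j, g j ∈ I)
    (hIp : I ≤ ptIdeal p) (hne : ¬ ptIdeal p ≤ I)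
    {h : MvPolynomial (Option ι) K} (hh : h ∈ I) : aeval v h = 0 := by
  by_contra h0
  have hg : ∀ j, eval p (g j) = 0 := fun j => mem_ptIdeal.1 (hIp (hgI j))
  have hcc : ∀ P : MvPolynomial (Option ι) K,
      PowerSeries.constantCoeff (aeval v P) = eval p P := by
    intro P
    rw [constantCoeff_aeval]
    congr 2
    funext i
    exact hvp i
  have hspan : ∀ P ∈ Ideal.span (Set.range g), aeval v P = 0 := by
    intro P hP
    have h1 : Ideal.span (Set.range g) ≤ RingHom.ker (aeval (R := K) v).toRingHom := by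
      rw [Ideal.span_le]
      rintro _ ⟨j, rfl⟩
      exact hvg j
    exact h1 hP
  have hgle : Ideal.span (Set.range g) ≤ I := by
    rw [Ideal.span_le]
    rintro _ ⟨j, rfl⟩
    exact hgI j
  -- the order
  have hex : ∃ k : ℕ, PowerSeries.X ^ k ∣ aeval v h ∧ ¬ PowerSeries.X ^ (k + 1) ∣ aeval v h := by
    by_contra hcon
    push Not at hcon
    have hall : ∀ k : ℕ, PowerSeries.X ^ k ∣ aeval v h := by
      intro k
      induction k with
      | zero => simp
      | succ k ih => exact hcon k ih
    apply h0
    ext n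
    rw [map_zero]
    exact PowerSeries.X_pow_dvd_iff.1 (hall (n + 1)) n (by omega)
  obtain ⟨k, hk1, hk2⟩ := hex
  obtain ⟨s, r, hs, hsr⟩ := exists_div g p hg hdet v hv0 hvp hvg h k hk1
  have h1 := hspan _ hsr
  rw [map_sub, map_mul, map_mul, map_pow, map_sub, aeval_X, aeval_C, hv0] at h1
  have h2 : PowerSeries.C (p none) + PowerSeries.X - algebraMap K (PowerSeries K) (p none) =
      PowerSeries.X := by
    rw [← PowerSeries.algebraMap_eq, add_sub_cancel_left]
  rw [h2, sub_eq_zero] at h1
  have hr : r ∉ ptIdeal p := by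
    intro hr
    rw [mem_ptIdeal, ← hcc, ← PowerSeries.X_dvd_iff] at hr
    apply hk2
    have h3 : PowerSeries.X ^ (k + 1) ∣ aeval v s * aeval v h := by
      rw [h1, pow_succ]
      exact mul_dvd_mul_left _ hr
    have h4 : IsUnit (aeval v s) := by
      rw [PowerSeries.isUnit_iff_constantCoeff, hcc, isUnit_iff_ne_zero]
      exact fun h' => hs (mem_ptIdeal.2 h')
    exact (h4.dvd_mul_left).1 h3
  have h3 : (X none - C (p none)) ^ k * r ∈ I := by
    have h4 := I.sub_mem (I.mul_mem_left s hh) (hgle hsr)
    rwa [sub_sub_cancel] at h4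
  have hprime : I.IsPrime := inferInstance
  have ht : X none - C (p none) ∈ I :=
    (hprime.mem_or_mem h3).elim (fun h' => hprime.mem_of_pow_mem _ h') fun h' =>
      absurd (hIp h') hr
  obtain ⟨s', hs', hs'm⟩ := exists_mul_mem g p hg hdet
  apply hne
  intro q hq
  have h5 : s' * q ∈ I := by
    have h6 : Ideal.span (Set.range g) ⊔ Ideal.span {X none - C (p none)} ≤ I :=
      sup_le hgle (Ideal.span_le.2 (by rintro _ rfl; exact ht))
    exact h6 (hs'm q hq)
  exact (hprime.mem_or_mem h5).elim (fun h' => absurd (hIp h') hs') id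

end Pool.Agent.Helper88.TNA
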